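import Mathlib
import Pool.Agent.H.MP_269158_co.Defs
import Pool.Agent.H.MP_269158_co.Up
import Pool.Agent.H.MP_269158_co.Low

set_option autoImplicit false

namespace Pool.Agent.Results.MP_269158_co.Theta

open Pool.Agent.H.MP_269158_co

lemma cb1 (k : ℕ) : (2 * k + 1) * k.centralBinom ^ 2 ≤ 16 ^ k := by
  induction k with
  | zero => simp
  | succ k ih =>
    have e := congrArg (· ^ 2) (Nat.succ_mul_centralBinom_succ k)
    simp only [mul_pow] at e
    refine Nat.le_of_mul_le_mul_left (c := (k + 1) ^ 2) ?_ (by positivity)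
    rw [mul_left_comm, e, pow_succ 16]
    nlinarith [Nat.mul_le_mul_left ((2 * k + 3) * 4 * (2 * k + 1)) ih, Nat.zero_le (16 ^ k)]

lemma cb2 (k : ℕ) : 16 ^ (k + 1) ≤ 4 * (k + 1) * (k + 1).centralBinom ^ 2 := by
  induction k with
  | zero => decide
  | succ k ih =>
    have e := congrArg (· ^ 2) (Nat.succ_mul_centralBinom_succ (k + 1))
    simp only [mul_pow] at e
    refine Nat.le_of_mul_le_mul_left (c := k + 1 + 1) ?_ (by positivity)
    rw [show (k + 1 + 1) * (4 * (k + 1 + 1) * (k + 1 + 1).centralBinom ^ 2) =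
      4 * ((k + 1 + 1) ^ 2 * (k + 1 + 1).centralBinom ^ 2) by ring, e, pow_succ 16]
    nlinarith [Nat.mul_le_mul_left (16 * (k + 2)) ih, Nat.zero_le ((k + 1).centralBinom ^ 2)]

lemma cb3 (n : ℕ) : n * n.choose (n / 2) ^ 2 ≤ 4 ^ n := by
  have h := cb1 (n / 2)
  rw [Nat.centralBinom_eq_two_mul_choose, show 16 = 4 ^ 2 by norm_num, ← pow_mul] at h
  obtain ⟨k, rfl | rfl⟩ := Nat.even_or_odd' n
  · rw [Nat.mul_div_cancel_left _ two_pos] at h ⊢
    nlinarith [Nat.zero_le ((2 * k).choose k ^ 2)]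
  · rw [show (2 * k + 1) / 2 = k by omega] at h ⊢
    have a : (2 * k + 1).choose k ≤ 2 * (2 * k).choose k := by
      have b := Nat.choose_le_middle (k + 1) (2 * k)
      rw [Nat.mul_div_cancel_left _ two_pos] at b
      rw [← Nat.choose_symm_half, Nat.choose_succ_succ']
      omega
    rw [pow_succ 4]
    nlinarith [Nat.mul_le_mul_left (2 * k + 1) (Nat.pow_le_pow_left a 2)]

lemma up (n : ℕ) (hn : 1 ≤ n) :
    ∃ B : ℕ, A n ≤ 2 ^ B ∧ n ^ 3 * B ^ 2 ≤ (167 * (2 * n).choose n) ^ 2 := by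
  obtain ⟨h, m, e, h1, h2⟩ : ∃ h m, n = h + (m + h) ∧ n ≤ 3 * (m + 2) ∧ n ≤ 3 * (2 * h + 1) :=
    ⟨n / 3, n - 2 * (n / 3), by omega, by omega, by omega⟩
  obtain ⟨B, a, b⟩ := upper h m n e
  refine ⟨B, a, ?_⟩
  have c1 := cb1 h
  have c2 := cb2 (n - 1)
  have c3 := cb3 n
  rw [Nat.sub_add_cancel hn] at c2
  rw [Nat.centralBinom_eq_two_mul_choose] at c1 c2
  have p : (2 ^ m) ^ 2 * 16 ^ h * 4 ^ n = 16 ^ n := by
    rw [show 16 = 4 * 4 from rfl, mul_pow, mul_pow, ← pow_mul, mul_comm m, pow_mul, e]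
    norm_num
    ring
  have q : n ^ 3 ≤ 27 * ((m + 2) ^ 2 * (2 * h + 1)) := by
    have := Nat.mul_le_mul (Nat.pow_le_pow_left h1 2) h2
    nlinarith
  have r : n * (((m + 2) * B) ^ 2 * (2 * h + 1)) ≤ n * (1024 * (2 * n).choose n ^ 2) :=
    calc _ ≤ n * ((16 * 2 ^ m * (2 * h).choose h * n.choose (n / 2)) ^ 2 * (2 * h + 1)) := by
          gcongr
      _ = 256 * ((2 ^ m) ^ 2 * ((2 * h + 1) * (2 * h).choose h ^ 2) *
          (n * n.choose (n / 2) ^ 2)) := by ring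
      _ ≤ 256 * ((2 ^ m) ^ 2 * 16 ^ h * 4 ^ n) := by gcongr
      _ ≤ _ := by rw [p]; nlinarith
  have s := Nat.le_of_mul_le_mul_left r hn
  nlinarith [Nat.mul_le_mul_right (B ^ 2) q, Nat.zero_le ((2 * n).choose n ^ 2)]

theorem result (n : ℕ) (hn : 1 ≤ n) :
    (1 / 16 : ℝ) * ((2 * n).choose n / (n : ℝ) ^ (3 / 2 : ℝ)) ≤ Real.logb 2 (A n) ∧
    Real.logb 2 (A n) ≤ 167 * ((2 * n).choose n / (n : ℝ) ^ (3 / 2 : ℝ)) := by
  have n0 : (1 : ℝ) ≤ n := by exact_mod_cast hn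
  have e : (n : ℝ) ^ (3 / 2 : ℝ) = n * √n := by
    rw [Real.sqrt_eq_rpow, show (3 / 2 : ℝ) = 1 + 1 / 2 by norm_num,
      Real.rpow_add (by linarith), Real.rpow_one]
  have s1 : 1 ≤ √(n : ℝ) := Real.one_le_sqrt.2 n0
  have p : 0 < (n : ℝ) * √n := by positivity
  rw [e, ← mul_div_assoc, ← mul_div_assoc, div_le_iff₀ p, le_div_iff₀ p]
  constructor
  · have h := lower n (2 * n * (n.sqrt + 1)) (Nat.log 2 (A n)) hn (by
      have := Nat.mul_le_mul_left (n ^ 2) (Nat.lt_succ_sqrt' n).le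
      simp only [Nat.succ_eq_add_one] at this
      nlinarith [Nat.zero_le (n ^ 3)]) (Nat.lt_pow_succ_log_self one_lt_two _)
    have h1 : (((2 * n).choose n : ℕ) : ℝ) ≤ 4 * (2 * n * (n.sqrt + 1)) * Nat.log 2 (A n) := by
      exact_mod_cast h
    have h2 : (Nat.log 2 (A n) : ℝ) ≤ Real.logb 2 (A n) := by
      exact_mod_cast Real.natLog_le_logb (A n) 2
    have h3 : (n.sqrt : ℝ) ≤ √n := Real.nat_sqrt_le_real_sqrt
    have h4 : (4 * (2 * n * (n.sqrt + 1)) : ℝ) ≤ 16 * (n * √n) := by nlinarith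
    have h5 := mul_le_mul h4 h2 (by positivity) (by positivity)
    linarith
  · obtain ⟨B, a, b⟩ := up n hn
    have h1 : Real.logb 2 (A n) ≤ B := by
      rcases Nat.eq_zero_or_pos (A n) with h | h
      · simp [h]
      · rw [Real.logb_le_iff_le_rpow one_lt_two (by exact_mod_cast h), Real.rpow_natCast]
        exact_mod_cast a
    have h2 : (B : ℝ) * (n * √n) ≤ 167 * ((2 * n).choose n : ℕ) := by
      refine (pow_le_pow_iff_left₀ (by positivity) (by positivity) two_ne_zero).1 ?_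
      rw [mul_pow, mul_pow _ √n, Real.sq_sqrt (by positivity)]
      have : ((n : ℝ) ^ 3 * B ^ 2) ≤ (167 * ((2 * n).choose n : ℕ)) ^ 2 := by exact_mod_cast b
      linarith
    exact (mul_le_mul_of_nonneg_right h1 p.le).trans h2

end Pool.Agent.Results.MP_269158_co.Theta
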